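import Pool.Agent.H95.Zs4

set_option autoImplicit false

namespace Pool.Agent.Results.MP_8bc176_co.No
open MeasureTheory Pool.Agent.H95.ZsDefs

theorem result (d : ℕ) (S P : Set (EuclideanSpace ℝ (Fin d))) (hP : IsGenPolytope P)
    (h : stdMeasure P ∈ Submodule.span ℝ (simplexMeasures S)) :
    stdMeasure P ∈ Submodule.span ℤ (simplexMeasures S) ∧
    ((∀ B B', IsSimplexBasis S B → IsSimplexBasis S B' →
        Submodule.span ℤ B = Submodule.span ℤ B') →
      ∀ B, IsSimplexBasis S B → stdMeasure P ∈ Submodule.span ℤ B) := by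
  obtain ⟨F, -, rfl⟩ := hP
  have h1 := Pool.Agent.H95.Zs.final S _
    (F.isCompact_biUnion fun A _ => A.finite_toSet.isCompact_convexHull ℝ) h
  refine ⟨h1, fun H B hB => ?_⟩
  refine (Submodule.span_le.2 fun ν hν => ?_ : Submodule.span ℤ (simplexMeasures S) ≤ _) h1
  by_cases h0 : ν = 0
  · subst h0; exact Submodule.zero_mem _
  · have hli : LinearIndepOn ℝ id ({ν} : Set _) := LinearIndepOn.singleton h0
    obtain ⟨B', h2, h3, h4, h5⟩ :=
      exists_linearIndepOn_id_extension hli (Set.singleton_subset_iff.2 hν)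
    rw [SetLike.mem_coe, H B B' hB ⟨h2, h5, le_antisymm (Submodule.span_mono h2)
      (Submodule.span_le.2 h4)⟩]
    exact Submodule.subset_span (h3 rfl)

end Pool.Agent.Results.MP_8bc176_co.No
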